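import Pool.Agent.Q218.HB.Stm4

/-!
# Project HB (helper218), job DIA: the rank of a difference of potentials
-/

set_option autoImplicit false

namespace Pool.Agent.Q68.HB

open Pool.Agent.Q218.HB

theorem dia : S_DIA := by
  intro Λ _ _ h V W S hS
  classical
  have h1 : Hm h V - Hm h W = Matrix.diagonal fun x => ((V x - W x : ℝ) : ℂ) := by
    ext x y
    rw [Matrix.sub_apply]
    unfold Hm
    by_cases hxy : x = y
    · subst hxy
      rw [if_pos rfl, if_pos rfl, Matrix.diagonal_apply_eq]
      push_cast
      ring
    · rw [if_neg hxy, if_neg hxy, Matrix.diagonal_apply_ne _ hxy]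
      ring
  rw [h1, Matrix.rank_diagonal]
  rw [Fintype.card_subtype]
  refine Finset.card_le_card fun x hx => ?_
  by_contra hx'
  rw [Finset.mem_filter] at hx
  apply hx.2
  rw [hS x hx', sub_self, Complex.ofReal_zero]

end Pool.Agent.Q68.HB
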